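import Pool.Agent.Helper20.Mono.Goals

/-!
Packet D2 (MP_aa7fc1_ag): the multiplicity formula.
-/

namespace Mono

open Finset

namespace D2

variable {n : ℕ}

lemma cs_eq_of_mxT (hS : SpanT) (Φ : Fan n) {T : Finset (Fin n)} {τ : Finset (Fin n → ℤ)}
    (hτ : τ ∈ Φ.mxT T) : cs τ = T := by
  have h1 : ∀ u ∈ τ, ∀ i, i ∉ T → u i = 0 := (mem_filter.1 hτ).2.2
  apply Finset.Subset.antisymm
  · intro i hi
    obtain ⟨u, hu, hui⟩ := (mem_filter.1 hi).2
    by_contra hiT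
    exact hui (h1 u hu i hiT)
  · intro i hi
    by_contra hics
    have h2 : ∀ u ∈ τ, u i = 0 := by
      intro u hu
      by_contra hui
      exact hics (mem_filter.2 ⟨mem_univ _, u, hu, hui⟩)
    have h3 := hS n Φ T τ hτ (Pi.single i 1) (by
      intro j hj
      have : j ≠ i := fun h => hj (h ▸ hi)
      simp [this])
    have h4 := congrFun h3.2 i
    rw [Finset.sum_apply] at h4
    simp only [Pi.single_eq_same, Pi.smul_apply, toR_apply, smul_eq_mul] at h4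
    rw [Finset.sum_eq_zero] at h4
    · exact one_ne_zero h4
    · intro u hu
      rw [h2 u hu]
      simp

lemma mem_mxT_cs (Φ : Fan n) {τ : Finset (Fin n → ℤ)} (hτ : τ ∈ Φ.faces)
    (hc : τ.card = (cs τ).card) : τ ∈ Φ.mxT (cs τ) := by
  refine mem_filter.2 ⟨hτ, hc, ?_⟩
  intro u hu i hi
  by_contra hui
  exact hi (mem_filter.2 ⟨mem_univ _, u, hu, hui⟩)

lemma lstar_eq_zero {Z G : Finset (Fin n → ℤ)} (hG : G ⊆ Z) {q : ℚ} (hq : q.den ≠ 1) :
    lstar Z (q : ℝ) G = 0 := by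
  unfold lstar
  have : IsEmpty {b : Fin n → ℤ // ∃ c : (Fin n → ℤ) → ℝ, (∀ u ∈ G, 0 < c u ∧ c u < 1) ∧
      toR b = ∑ u ∈ G, c u • toR u ∧ ∃ z : ℤ, ∑ u ∈ G \ Z, c u - (q : ℝ) = z} := by
    constructor
    rintro ⟨b, c, -, -, z, hz⟩
    rw [Finset.sdiff_eq_empty_iff_subset.2 hG, Finset.sum_empty, zero_sub] at hz
    apply hq
    have h1 : q = ((-z : ℤ) : ℚ) := by
      have : (q : ℝ) = ((-z : ℤ) : ℝ) := by push_cast; linarith
      exact_mod_cast this
    rw [h1]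
    exact Rat.den_intCast _
  exact Nat.card_of_isEmpty

lemma box_sum (h : BoxCount) (Φ : Fan n) {Z τ : Finset (Fin n → ℤ)} (hτ : τ ∈ Φ.faces) {q : ℚ}
    (hq : q.den ≠ 1) : (∑ G ∈ τ.powerset, lstar Z (q : ℝ) G) =
      if ¬ τ ⊆ Z ∧ q.den ∣ latDistZ Z τ then volZ Z τ else 0 := by
  by_cases hZ : τ ⊆ Z
  · rw [if_neg (fun h => h.1 hZ)]
    apply Finset.sum_eq_zero
    intro G hG
    exact lstar_eq_zero ((mem_powerset.1 hG).trans hZ) hq
  · rw [h n Z τ hZ ((Φ.mem_faces.1 hτ).indep) q]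
    by_cases hd : q.den ∣ latDistZ Z τ
    · rw [if_pos hd, if_pos ⟨hZ, hd⟩]
    · rw [if_neg hd, if_neg (fun h => hd h.2)]

end D2

open D2 in
/-- D2. -/
theorem multFormula (h : BoxCount) (hS : SpanT) : MultFormula := by
  intro n Φ Z S _ _ q hq
  classical
  -- the right hand side
  have e1 : ∀ G ∈ Φ.faces, (lstar Z (q : ℝ) G : ℤ) * Φ.ell (G ∪ S) =
      ∑ T : Finset (Fin n), ∑ τ ∈ Φ.mxT T, if S ⊆ τ ∧ G ⊆ τ then
        (-1) ^ (n - τ.card) * (lstar Z (q : ℝ) G : ℤ) else 0 := by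
    intro G _
    unfold Fan.ell
    rw [Finset.mul_sum, Finset.sum_filter]
    apply Finset.sum_congr rfl
    intro T _
    have e2 : ∀ τ ∈ Φ.mxT T, τ.card = T.card := fun τ hτ => (mem_filter.1 hτ).2.1
    have e3 : (∑ τ ∈ Φ.mxT T, if S ⊆ τ ∧ G ⊆ τ then
        (-1) ^ (n - τ.card) * (lstar Z (q : ℝ) G : ℤ) else 0) =
        (lstar Z (q : ℝ) G : ℤ) * ((-1) ^ (n - T.card) *
          (((Φ.mxT T).filter (fun τ => G ∪ S ⊆ τ)).card : ℤ)) := by
      rw [Finset.card_filter, Nat.cast_sum, Finset.mul_sum, Finset.mul_sum]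
      apply Finset.sum_congr rfl
      intro τ hτ
      rw [e2 τ hτ]
      by_cases hc : S ⊆ τ ∧ G ⊆ τ
      · rw [if_pos hc, if_pos (Finset.union_subset hc.2 hc.1)]
        push_cast
        ring
      · rw [if_neg hc, if_neg]
        · simp
        · intro hu
          exact hc ⟨Finset.subset_union_right.trans hu, Finset.subset_union_left.trans hu⟩
    rw [e3]
    by_cases hT : cs (G ∪ S) ⊆ T
    · rw [if_pos hT]
    · rw [if_neg hT]
      have : (Φ.mxT T).filter (fun τ => G ∪ S ⊆ τ) = ∅ := by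
        rw [Finset.filter_eq_empty_iff]
        intro τ hτ hsub
        apply hT
        intro i hi
        obtain ⟨u, hu, hui⟩ := (mem_filter.1 hi).2
        by_contra hiT
        exact hui ((mem_filter.1 hτ).2.2 u (hsub hu) i hiT)
      rw [this]
      simp
  rw [Finset.sum_congr rfl e1, Finset.sum_comm]
  -- the inner sum
  have e4 : ∀ T : Finset (Fin n), (∑ G ∈ Φ.faces, ∑ τ ∈ Φ.mxT T, if S ⊆ τ ∧ G ⊆ τ then
        (-1) ^ (n - τ.card) * (lstar Z (q : ℝ) G : ℤ) else 0) =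
      ∑ τ ∈ Φ.mxT T, if S ⊆ τ ∧ ¬ τ ⊆ Z ∧ q.den ∣ latDistZ Z τ then
        (-1) ^ (n - τ.card) * (volZ Z τ : ℤ) else 0 := by
    intro T
    rw [Finset.sum_comm]
    apply Finset.sum_congr rfl
    intro τ hτ
    have hτf : τ ∈ Φ.faces := (mem_filter.1 hτ).1
    by_cases hSτ : S ⊆ τ
    · have e5 : (∑ G ∈ Φ.faces, if S ⊆ τ ∧ G ⊆ τ then
          (-1) ^ (n - τ.card) * (lstar Z (q : ℝ) G : ℤ) else 0) =
          (-1) ^ (n - τ.card) * ((∑ G ∈ τ.powerset, lstar Z (q : ℝ) G : ℕ) : ℤ) := by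
        rw [Nat.cast_sum, Finset.mul_sum, ← Finset.sum_filter]
        apply Finset.sum_congr _ (fun _ _ => rfl)
        ext G
        simp only [mem_filter, mem_powerset]
        constructor
        · exact fun h => h.2.2
        · intro hG
          refine ⟨?_, hSτ, hG⟩
          rw [Φ.mem_faces]
          exact (Φ.mem_faces.1 hτf).subset Φ hG
      rw [e5, box_sum h Φ hτf hq]
      by_cases hc : ¬ τ ⊆ Z ∧ q.den ∣ latDistZ Z τ
      · rw [if_pos hc, if_pos ⟨hSτ, hc⟩]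
      · rw [if_neg hc, if_neg (fun h => hc h.2)]
        simp
    · rw [if_neg (fun h => hSτ h.1)]
      apply Finset.sum_eq_zero
      intro G _
      rw [if_neg (fun h => hSτ h.1)]
  rw [Finset.sum_congr rfl (fun T _ => e4 T)]
  -- regroup
  rw [Finset.sum_sigma']
  unfold Fan.mult
  rw [← Finset.sum_filter]
  symm
  apply Finset.sum_bij (fun p _ => p.2)
  · rintro ⟨T, τ⟩ hp
    simp only [mem_filter, mem_sigma, mem_univ, true_and] at hp
    obtain ⟨h1, h2, h3, h4⟩ := hp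
    have hcs := cs_eq_of_mxT hS Φ h1
    refine mem_filter.2 ⟨(mem_filter.1 h1).1, h2, h3, ?_, h4⟩
    rw [hcs]
    exact (mem_filter.1 h1).2.1
  · rintro ⟨T, τ⟩ hp ⟨T', τ'⟩ hp' heq
    simp only at heq
    subst heq
    simp only [mem_filter, mem_sigma, mem_univ, true_and] at hp hp'
    have h1 := cs_eq_of_mxT hS Φ hp.1
    have h2 := cs_eq_of_mxT hS Φ hp'.1
    rw [← h1, ← h2]
  · intro τ hτ
    obtain ⟨h1, h2, h3, h4, h5⟩ := mem_filter.1 hτ
    refine ⟨⟨cs τ, τ⟩, ?_, rfl⟩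
    simp only [mem_filter, mem_sigma, mem_univ, true_and]
    exact ⟨mem_mxT_cs Φ h1 h4, h2, h3, h5⟩
  · rintro ⟨T, τ⟩ _
    rfl

end Mono
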